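import Pool.Agent.Lib.MP_4a7ffb_al.Sat

/-!
# MP_4a7ffb_al: in PSL_n(q), n >= 3, the involutions are joined

`F` is a finite field with `q` elements, and `q` is odd or `q - 1` does not divide `n`. The chains
consist of unipotent elements `1 + N` (`N ^ 2 = 0`) and of elements `ρ (1 - P) + ν P`, where `P`
is a projection of rank two.
-/

namespace Pool.Agent.MP_4a7ffb
open Matrix

section Elements

variable {F : Type*} [Field F] {n : ℕ}

theorem det_one_add_vmv (c ψ : Fin n → F) :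
    (1 + vecMulVec c ψ : Matrix (Fin n) (Fin n) F).det = 1 + ψ ⬝ᵥ c := by
  rw [vecMulVec_eq Unit, det_one_add_replicateCol_mul_replicateRow]

theorem vmv_mul (a b c d : Fin n → F) :
    vecMulVec a b * vecMulVec c d = (b ⬝ᵥ c) • vecMulVec a d := by
  ext i j
  rw [vecMulVec_mul_vecMulVec, vecMulVec_apply, Matrix.smul_apply, vecMulVec_apply,
    Pi.smul_apply, smul_eq_mul, smul_eq_mul]
  ring

/-- `P` is a projection of rank two. -/
def IsP (P : Matrix (Fin n) (Fin n) F) : Prop :=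
  ∃ w w' α β : Fin n → F, α ⬝ᵥ w = 1 ∧ α ⬝ᵥ w' = 0 ∧ β ⬝ᵥ w = 0 ∧ β ⬝ᵥ w' = 1 ∧
    P = vecMulVec w α + vecMulVec w' β

theorem IsP.sq {P : Matrix (Fin n) (Fin n) F} (h : IsP P) : P * P = P := by
  obtain ⟨w, w', α, β, h1, h2, h3, h4, rfl⟩ := h
  rw [mul_add, add_mul, add_mul, vmv_mul, vmv_mul, vmv_mul, vmv_mul, h1, h2, h3, h4, one_smul,
    one_smul, zero_smul, zero_smul, add_zero, zero_add]

theorem IsP.det (hn : 2 ≤ n) {P : Matrix (Fin n) (Fin n) F} (h : IsP P) {ρ ν : F} (hρ : ρ ≠ 0) :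
    (ρ • (1 : Matrix (Fin n) (Fin n) F) + (ν - ρ) • P).det = ρ ^ (n - 2) * ν ^ 2 := by
  obtain ⟨w, w', α, β, h1, h2, h3, h4, rfl⟩ := h
  have h5 : ρ • (1 : Matrix (Fin n) (Fin n) F) + (ν - ρ) • (vecMulVec w α + vecMulVec w' β) =
      ρ • ((1 + vecMulVec (((ν - ρ) / ρ) • w) α) * (1 + vecMulVec (((ν - ρ) / ρ) • w') β)) := by
    have hκ : ρ * ((ν - ρ) / ρ) = ν - ρ := by field_simp
    rw [mul_add, mul_one, add_mul, one_mul, vmv_mul, dotProduct_smul, h2, smul_zero, zero_smul,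
      add_zero, smul_vecMulVec, smul_vecMulVec]
    simp only [smul_add, smul_smul, hκ, add_assoc]
  rw [h5, det_smul, det_mul, det_one_add_vmv, det_one_add_vmv, dotProduct_smul, dotProduct_smul,
    h1, h4, Fintype.card_fin]
  obtain ⟨k, rfl⟩ : ∃ k, n = k + 2 := ⟨n - 2, by omega⟩
  rw [Nat.add_sub_cancel, pow_add, smul_eq_mul, mul_one]
  field_simp
  ring

theorem exists_orth (hn : 3 ≤ n) (u w : Fin n → F) :
    ∃ ψ : Fin n → F, ψ ≠ 0 ∧ ψ ⬝ᵥ u = 0 ∧ ψ ⬝ᵥ w = 0 := by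
  let f : (Fin n → F) →ₗ[F] (F × F) :=
    { toFun := fun ψ => (ψ ⬝ᵥ u, ψ ⬝ᵥ w)
      map_add' := fun x y => by simp [add_dotProduct]
      map_smul' := fun r x => by simp [smul_dotProduct] }
  have h1 : LinearMap.ker f ≠ ⊥ := by
    apply LinearMap.ker_ne_bot_of_finrank_lt
    rw [Module.finrank_prod, Module.finrank_self, Module.finrank_fin_fun]
    omega
  obtain ⟨ψ, hψ, hψ0⟩ := Submodule.exists_mem_ne_zero_of_ne_bot h1
  rw [LinearMap.mem_ker] at hψ
  exact ⟨ψ, hψ0, congrArg Prod.fst hψ, congrArg Prod.snd hψ⟩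

theorem IsP.not_scalar (hn : 3 ≤ n) {P : Matrix (Fin n) (Fin n) F} (h : IsP P) (s : F) :
    P ≠ s • (1 : Matrix (Fin n) (Fin n) F) := by
  obtain ⟨w, w', α, β, h1, h2, h3, h4, rfl⟩ := h
  intro hs
  obtain ⟨x, hx0, hx1, hx2⟩ := exists_orth hn α β
  rw [dotProduct_comm] at hx1 hx2
  have e1 : (vecMulVec w α + vecMulVec w' β) *ᵥ x = 0 := by
    rw [add_mulVec, vecMulVec_mulVec, vecMulVec_mulVec, hx1, hx2]
    simp
  rw [hs, smul_mulVec, one_mulVec] at e1
  have hs0 : s = 0 := (smul_eq_zero.mp e1).resolve_right hx0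
  have e2 : (vecMulVec w α + vecMulVec w' β) *ᵥ w = w := by
    rw [add_mulVec, vecMulVec_mulVec, vecMulVec_mulVec, h1, h3]
    simp
  rw [hs, hs0, zero_smul, zero_mulVec] at e2
  rw [← e2, dotProduct_zero] at h1
  exact zero_ne_one h1

/-- The element `ρ (1 - P) + ν P`. -/
def dn (P : Matrix (Fin n) (Fin n) F) (ρ ν : F)
    (h : (ρ • (1 : Matrix (Fin n) (Fin n) F) + (ν - ρ) • P).det = 1) :
    Matrix.SpecialLinearGroup (Fin n) F :=
  ⟨ρ • (1 : Matrix (Fin n) (Fin n) F) + (ν - ρ) • P, h⟩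

/-- The element `1 + N`. -/
def un (N : Matrix (Fin n) (Fin n) F) (h : (1 + N).det = 1) :
    Matrix.SpecialLinearGroup (Fin n) F := ⟨1 + N, h⟩

theorem un_pow (N : Matrix (Fin n) (Fin n) F) (h : (1 + N).det = 1) (hNN : N * N = 0) (k : ℕ) :
    (un N h ^ k).1 = 1 + (k : F) • N := by
  induction k with
  | zero =>
    rw [pow_zero, Nat.cast_zero, zero_smul, add_zero]
    rfl
  | succ k ih =>
    have h1 : (un N h ^ (k + 1)).1 = (un N h ^ k).1 * (1 + N) := rfl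
    rw [h1, ih, mul_add, mul_one, add_mul, one_mul, smul_mul_assoc, hNN,
      smul_zero, add_zero, Nat.cast_add, Nat.cast_one, add_smul, one_smul, add_assoc]

theorem un_pow_char (N : Matrix (Fin n) (Fin n) F) (h : (1 + N).det = 1) (hNN : N * N = 0)
    {p : ℕ} (hp : (p : F) = 0) : un N h ^ p = 1 := by
  apply Subtype.ext
  rw [un_pow N h hNN, hp, zero_smul, add_zero]
  rfl

theorem dn_pow {P : Matrix (Fin n) (Fin n) F} (hP : IsP P) (ρ ν : F)
    (h : (ρ • (1 : Matrix (Fin n) (Fin n) F) + (ν - ρ) • P).det = 1) (k : ℕ) :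
    (dn P ρ ν h ^ k).1 = ρ ^ k • (1 : Matrix (Fin n) (Fin n) F) + (ν ^ k - ρ ^ k) • P := by
  induction k with
  | zero =>
    rw [pow_zero, pow_zero, pow_zero, sub_self, zero_smul, add_zero, one_smul]
    rfl
  | succ k ih =>
    have h1 : (dn P ρ ν h ^ (k + 1)).1 = (dn P ρ ν h ^ k).1 *
        (ρ • (1 : Matrix (Fin n) (Fin n) F) + (ν - ρ) • P) := rfl
    rw [h1, ih]
    simp only [mul_add, add_mul, smul_mul_assoc, mul_smul_comm, mul_one, one_mul, hP.sq, pow_succ]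
    module

theorem dn_pow_eq_one {P : Matrix (Fin n) (Fin n) F} (hP : IsP P) (ρ ν : F)
    (h : (ρ • (1 : Matrix (Fin n) (Fin n) F) + (ν - ρ) • P).det = 1) {m : ℕ}
    (h1 : ρ ^ m = 1) (h2 : ν ^ m = 1) : dn P ρ ν h ^ m = 1 := by
  apply Subtype.ext
  rw [dn_pow hP, h1, h2, sub_self, zero_smul, add_zero, one_smul]
  rfl

theorem scalar_eq_smul (r : F) :
    Matrix.scalar (Fin n) r = r • (1 : Matrix (Fin n) (Fin n) F) := by
  rw [Matrix.smul_one_eq_diagonal]
  rfl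

theorem un_not_mem_center (hn : 0 < n) (N : Matrix (Fin n) (Fin n) F) (h : (1 + N).det = 1)
    (hNN : N * N = 0) (hN : N ≠ 0) :
    un N h ∉ Subgroup.center (Matrix.SpecialLinearGroup (Fin n) F) := by
  intro hcen
  obtain ⟨r, -, hr⟩ := Matrix.SpecialLinearGroup.mem_center_iff.mp hcen
  have h1 : Matrix.scalar (Fin n) r = 1 + N := hr
  rw [scalar_eq_smul] at h1
  have h2 : N = (r - 1) • (1 : Matrix (Fin n) (Fin n) F) := by
    rw [sub_smul, one_smul, h1]
    abel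
  have h3 : ((r - 1) * (r - 1)) • (1 : Matrix (Fin n) (Fin n) F) = 0 := by
    rw [← hNN, h2, smul_mul_assoc, one_mul, smul_smul]
  have h4 := congrFun (congrFun h3 ⟨0, hn⟩) ⟨0, hn⟩
  rw [Matrix.smul_apply, Matrix.one_apply_eq, smul_eq_mul, mul_one, Matrix.zero_apply] at h4
  have h5 : r - 1 = 0 := mul_self_eq_zero.mp h4
  rw [h5, zero_smul] at h2
  exact hN h2

theorem dn_not_mem_center (hn : 3 ≤ n) {P : Matrix (Fin n) (Fin n) F} (hP : IsP P) {ρ ν : F}
    (hne : ν ≠ ρ) (h : (ρ • (1 : Matrix (Fin n) (Fin n) F) + (ν - ρ) • P).det = 1) :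
    dn P ρ ν h ∉ Subgroup.center (Matrix.SpecialLinearGroup (Fin n) F) := by
  intro hcen
  obtain ⟨r, -, hr⟩ := Matrix.SpecialLinearGroup.mem_center_iff.mp hcen
  have h1 : Matrix.scalar (Fin n) r = ρ • (1 : Matrix (Fin n) (Fin n) F) + (ν - ρ) • P := hr
  rw [scalar_eq_smul] at h1
  have h3 : (ν - ρ) • P = (r - ρ) • (1 : Matrix (Fin n) (Fin n) F) := by
    rw [sub_smul r, h1]
    abel
  refine hP.not_scalar hn ((ν - ρ)⁻¹ * (r - ρ)) ?_
  rw [mul_smul, ← h3, smul_smul, inv_mul_cancel₀ (sub_ne_zero.mpr hne), one_smul]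

end Elements

section Algebra

variable {F : Type*} [Field F] {n : ℕ}

/-- Two opposite transvections commute with a common `ρ (1 - P) + ν P`. -/
theorem exists_P_of_opposite (c ψ c' ψ' : Fin n → F) (h : ψ ⬝ᵥ c = 0) (h' : ψ' ⬝ᵥ c' = 0)
    (ho : ψ ⬝ᵥ c' ≠ 0) (ho' : ψ' ⬝ᵥ c ≠ 0) :
    ∃ P : Matrix (Fin n) (Fin n) F, IsP P ∧ P * vecMulVec c ψ = vecMulVec c ψ * P ∧
      P * vecMulVec c' ψ' = vecMulVec c' ψ' * P := by
  refine ⟨vecMulVec c ((ψ' ⬝ᵥ c)⁻¹ • ψ') + vecMulVec c' ((ψ ⬝ᵥ c')⁻¹ • ψ),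
    ⟨c, c', (ψ' ⬝ᵥ c)⁻¹ • ψ', (ψ ⬝ᵥ c')⁻¹ • ψ, ?_, ?_, ?_, ?_, rfl⟩, ?_, ?_⟩
  · rw [smul_dotProduct, smul_eq_mul, inv_mul_cancel₀ ho']
  · rw [smul_dotProduct, h', smul_zero]
  · rw [smul_dotProduct, h, smul_zero]
  · rw [smul_dotProduct, smul_eq_mul, inv_mul_cancel₀ ho]
  · rw [add_mul, mul_add, vmv_mul, vmv_mul, vmv_mul, vmv_mul, smul_dotProduct, smul_dotProduct, h,
      smul_zero, zero_smul, add_zero, zero_smul, zero_add, smul_eq_mul, inv_mul_cancel₀ ho',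
      one_smul, vecMulVec_smul, smul_smul, mul_inv_cancel₀ ho, one_smul]
  · rw [add_mul, mul_add, vmv_mul, vmv_mul, vmv_mul, vmv_mul, smul_dotProduct, smul_dotProduct, h',
      smul_zero, zero_smul, zero_add, zero_smul, add_zero, smul_eq_mul, inv_mul_cancel₀ ho,
      one_smul, vecMulVec_smul, smul_smul, mul_inv_cancel₀ ho', one_smul]

/-- A matrix of square zero commutes with a projection of rank two. -/
theorem exists_P_of_sq_zero (N : Matrix (Fin n) (Fin n) F) (hN : N ≠ 0) (hNN : N * N = 0) :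
    ∃ P : Matrix (Fin n) (Fin n) F, IsP P ∧ P * N = N * P ∧ ∃ c ψ : Fin n → F, c ≠ 0 ∧ ψ ≠ 0 ∧
      ψ ⬝ᵥ c = 0 ∧ P * vecMulVec c ψ = vecMulVec c ψ * P := by
  obtain ⟨i, hi⟩ := Function.ne_iff.mp hN
  obtain ⟨j, hj⟩ := Function.ne_iff.mp hi
  have hne : N i j ≠ 0 := hj
  obtain ⟨w, hw⟩ : ∃ w : Fin n → F, w = Pi.single j 1 := ⟨_, rfl⟩
  have hNw : (N *ᵥ w) i = N i j := by
    rw [hw, mulVec_single_one]
    rfl
  have hNNw : N *ᵥ (N *ᵥ w) = 0 := by rw [mulVec_mulVec, hNN, zero_mulVec]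
  have hγw : N i ⬝ᵥ w = N i j := hNw
  have hγNw : N i ⬝ᵥ (N *ᵥ w) = 0 := congrFun hNNw i
  obtain ⟨β, hβ1, hβ2⟩ : ∃ β : Fin n → F, β ⬝ᵥ w = 0 ∧ β ⬝ᵥ (N *ᵥ w) = 1 := by
    refine ⟨(N i j)⁻¹ • (Pi.single i 1 - (w i / N i j) • N i), ?_, ?_⟩
    · rw [smul_dotProduct, sub_dotProduct, single_one_dotProduct, smul_dotProduct, hγw,
        smul_eq_mul, smul_eq_mul, div_mul_cancel₀ _ hne, sub_self, mul_zero]
    · rw [smul_dotProduct, sub_dotProduct, single_one_dotProduct, smul_dotProduct, hγNw, hNw,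
        smul_zero, sub_zero, smul_eq_mul, inv_mul_cancel₀ hne]
  have hα1 : (β ᵥ* N) ⬝ᵥ w = 1 := by rw [← dotProduct_mulVec, hβ2]
  have hα2 : (β ᵥ* N) ⬝ᵥ (N *ᵥ w) = 0 := by rw [← dotProduct_mulVec, hNNw, dotProduct_zero]
  have hαN : (β ᵥ* N) ᵥ* N = 0 := by rw [vecMul_vecMul, hNN, vecMul_zero]
  refine ⟨vecMulVec w (β ᵥ* N) + vecMulVec (N *ᵥ w) β,
    ⟨w, N *ᵥ w, β ᵥ* N, β, hα1, hα2, hβ1, hβ2, rfl⟩, ?_, N *ᵥ w, β ᵥ* N, ?_, ?_, hα2, ?_⟩
  · rw [add_mul, mul_add, vecMulVec_mul, vecMulVec_mul, mul_vecMulVec, mul_vecMulVec, hαN, hNNw,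
      vecMulVec_zero, zero_vecMulVec, zero_add, add_zero]
  · intro h
    rw [h, dotProduct_zero] at hβ2
    exact zero_ne_one hβ2
  · intro h
    rw [h, zero_dotProduct] at hα1
    exact zero_ne_one hα1
  · rw [add_mul, mul_add, vmv_mul, vmv_mul, vmv_mul, vmv_mul, hα1, hα2, hβ2, zero_smul, zero_smul,
      zero_add, add_zero]

/-- A non-scalar matrix moves some line. -/
theorem exists_not_eigen (g : Matrix (Fin n) (Fin n) F)
    (hg : ∀ s : F, g ≠ s • (1 : Matrix (Fin n) (Fin n) F)) :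
    ∃ x : Fin n → F, ∀ s : F, g *ᵥ x ≠ s • x := by
  by_contra hcon
  push Not at hcon
  have hdiag : ∀ i j, i ≠ j → g i j = 0 := by
    intro i j hij
    obtain ⟨s, hs⟩ := hcon (Pi.single j 1)
    have h1 := congrFun hs i
    rw [mulVec_single_one] at h1
    simpa [hij] using h1
  have heq : ∀ i j, g i i = g j j := by
    intro i j
    by_cases hij : i = j
    · rw [hij]
    · obtain ⟨s, hs⟩ := hcon (Pi.single i 1 + Pi.single j 1)
      rw [mulVec_add, mulVec_single_one, mulVec_single_one] at hs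
      have h1 := congrFun hs i
      have h2 := congrFun hs j
      simp [hij, Ne.symm hij, hdiag i j hij, hdiag j i (Ne.symm hij)] at h1 h2
      rw [h1, h2]
  by_cases hn : n = 0
  · subst hn
    exact hg 0 (by ext i; exact i.elim0)
  · have : NeZero n := ⟨hn⟩
    refine hg (g 0 0) ?_
    ext i j
    by_cases hij : i = j
    · subst hij
      rw [Matrix.smul_apply, Matrix.one_apply_eq, smul_eq_mul, mul_one, heq i 0]
    · rw [Matrix.smul_apply, Matrix.one_apply_ne hij, smul_zero, hdiag i j hij]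

/-- A non-scalar matrix whose square is scalar commutes with a matrix of square zero. -/
theorem exists_N_of_sq_scalar (hn : 3 ≤ n) (g : Matrix (Fin n) (Fin n) F) {r : F}
    (hgg : g * g = r • (1 : Matrix (Fin n) (Fin n) F))
    (hg : ∀ s : F, g ≠ s • (1 : Matrix (Fin n) (Fin n) F)) :
    ∃ N : Matrix (Fin n) (Fin n) F, N ≠ 0 ∧ N * N = 0 ∧ g * N = N * g ∧ (1 + N).det = 1 := by
  obtain ⟨x, hx⟩ := exists_not_eigen g hg
  obtain ⟨f, hf0, hf1, hf2⟩ := exists_orth hn x (g *ᵥ x)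
  have hfg1 : (f ᵥ* g) ⬝ᵥ x = 0 := by rw [← dotProduct_mulVec, hf2]
  have hggx : g *ᵥ (g *ᵥ x) = r • x := by
    rw [mulVec_mulVec, hgg, smul_mulVec, one_mulVec]
  have hfg2 : (f ᵥ* g) ⬝ᵥ (g *ᵥ x) = 0 := by
    rw [← dotProduct_mulVec, hggx, dotProduct_smul, hf1, smul_zero]
  have hfgg : (f ᵥ* g) ᵥ* g = r • f := by
    rw [vecMul_vecMul, hgg, vecMul_smul, vecMul_one]
  refine ⟨vecMulVec (g *ᵥ x) f + vecMulVec x (f ᵥ* g), ?_, ?_, ?_, ?_⟩
  · intro h0
    obtain ⟨i, hi⟩ := Function.ne_iff.mp hf0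
    simp only [Pi.zero_apply] at hi
    refine hx (-((f ᵥ* g) i / f i)) ?_
    ext k
    have h1 := congrFun (congrFun h0 k) i
    rw [Matrix.add_apply, vecMulVec_apply, vecMulVec_apply, Matrix.zero_apply] at h1
    rw [Pi.smul_apply, smul_eq_mul]
    field_simp
    linear_combination h1
  · rw [mul_add, add_mul, add_mul, vmv_mul, vmv_mul, vmv_mul, vmv_mul, hf1, hf2, hfg1, hfg2,
      zero_smul, zero_smul, zero_smul, zero_smul, add_zero, add_zero]
  · rw [mul_add, add_mul, mul_vecMulVec, mul_vecMulVec, vecMulVec_mul, vecMulVec_mul, hggx, hfgg,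
      vecMulVec_smul, smul_vecMulVec, add_comm]
  · have h1 : (1 : Matrix (Fin n) (Fin n) F) + (vecMulVec (g *ᵥ x) f + vecMulVec x (f ᵥ* g)) =
        (1 + vecMulVec (g *ᵥ x) f) * (1 + vecMulVec x (f ᵥ* g)) := by
      rw [mul_add, mul_one, add_mul, one_mul, vmv_mul, hf1, zero_smul, add_zero, add_assoc]
    rw [h1, det_mul, det_one_add_vmv, det_one_add_vmv, hf2, hfg1]
    simp

end Algebra

section Joined

theorem cyclicAdj_of {Q : Type*} [Group Q] {i t : Q} (hc : i * t = t * i) (hi : i * i = 1)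
    {p : ℕ} (hp : Odd p) (ht : t ^ p = 1) (hi1 : i ≠ 1) (ht1 : t ≠ 1) : CyclicAdj i t := by
  have hcomm : Commute i t := hc
  have h1 : (i * t) ^ p = i := by
    rw [hcomm.mul_pow, ht, mul_one]
    obtain ⟨k, rfl⟩ := hp
    rw [pow_succ, pow_mul, pow_two, hi, one_pow, one_mul]
  have hi' : i ∈ Subgroup.zpowers (i * t) := ⟨(p : ℤ), by
    show (i * t) ^ (p : ℤ) = i
    rw [zpow_natCast, h1]⟩
  refine ⟨hi1, ht1, i * t, hi', ?_⟩
  have h2 : i⁻¹ * (i * t) = t := by group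
  have h3 : i⁻¹ * (i * t) ∈ Subgroup.zpowers (i * t) :=
    Subgroup.mul_mem _ (Subgroup.inv_mem _ hi') (Subgroup.mem_zpowers _)
  rwa [h2] at h3

theorem CyclicAdj.symm {Q : Type*} [Group Q] {x y : Q} (h : CyclicAdj x y) : CyclicAdj y x := by
  obtain ⟨h1, h2, c, hx, hy⟩ := h
  exact ⟨h2, h1, c, hy, hx⟩

variable {F : Type*} [Field F] {n : ℕ}

/-- The projection of `SL_n(F)` to `PSL_n(F)`. -/
abbrev proj (n : ℕ) (F : Type*) [Field F] :
    Matrix.SpecialLinearGroup (Fin n) F →* Matrix.ProjectiveSpecialLinearGroup (Fin n) F :=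
  QuotientGroup.mk' (Subgroup.center (Matrix.SpecialLinearGroup (Fin n) F))

theorem proj_ne_one {g : Matrix.SpecialLinearGroup (Fin n) F}
    (hg : g ∉ Subgroup.center (Matrix.SpecialLinearGroup (Fin n) F)) : proj n F g ≠ 1 :=
  fun h => hg ((QuotientGroup.eq_one_iff g).mp h)

theorem det_trn (c ψ : Fin n → F) (h : ψ ⬝ᵥ c = 0) :
    (1 + vecMulVec c ψ : Matrix (Fin n) (Fin n) F).det = 1 := by
  rw [det_one_add_vmv, h, add_zero]

theorem trn_sq (c ψ : Fin n → F) (h : ψ ⬝ᵥ c = 0) :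
    vecMulVec c ψ * vecMulVec c ψ = 0 := by
  rw [vmv_mul, h, zero_smul]

theorem trn_ne (c ψ : Fin n → F) (hc : c ≠ 0) (hψ : ψ ≠ 0) : vecMulVec c ψ ≠ 0 := by
  intro h
  obtain ⟨i, hi⟩ := Function.ne_iff.mp hc
  obtain ⟨j, hj⟩ := Function.ne_iff.mp hψ
  have h1 := congrFun (congrFun h i) j
  rw [vecMulVec_apply] at h1
  exact (mul_ne_zero hi hj) h1

/-- Any two transvections are joined. -/
theorem joined_trn {ρ ν : F}
    (hd : ∀ P : Matrix (Fin n) (Fin n) F, IsP P →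
      (ρ • (1 : Matrix (Fin n) (Fin n) F) + (ν - ρ) • P).det = 1)
    (hadj : ∀ (N P : Matrix (Fin n) (Fin n) F) (_ : N ≠ 0) (_ : N * N = 0)
      (hN : (1 + N).det = 1) (hP : IsP P), P * N = N * P →
      CyclicAdj (proj n F (un N hN)) (proj n F (dn P ρ ν (hd P hP))))
    (c ψ c' ψ' : Fin n → F) (h : ψ ⬝ᵥ c = 0) (h' : ψ' ⬝ᵥ c' = 0)
    (hc : c ≠ 0) (hψ : ψ ≠ 0) (hc' : c' ≠ 0) (hψ' : ψ' ≠ 0) :
    Relation.ReflTransGen CyclicAdj (proj n F (un (vecMulVec c ψ) (det_trn c ψ h)))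
      (proj n F (un (vecMulVec c' ψ') (det_trn c' ψ' h'))) := by
  -- opposite transvections
  have opp : ∀ (c ψ c' ψ' : Fin n → F) (h : ψ ⬝ᵥ c = 0) (h' : ψ' ⬝ᵥ c' = 0),
      ψ ⬝ᵥ c' ≠ 0 → ψ' ⬝ᵥ c ≠ 0 →
      Relation.ReflTransGen CyclicAdj (proj n F (un (vecMulVec c ψ) (det_trn c ψ h)))
        (proj n F (un (vecMulVec c' ψ') (det_trn c' ψ' h'))) := by
    intro c ψ c' ψ' h h' ho ho'
    have hc : c ≠ 0 := by
      rintro rfl
      rw [dotProduct_zero] at ho'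
      exact ho' rfl
    have hψ : ψ ≠ 0 := by
      rintro rfl
      rw [zero_dotProduct] at ho
      exact ho rfl
    have hc' : c' ≠ 0 := by
      rintro rfl
      rw [dotProduct_zero] at ho
      exact ho rfl
    have hψ' : ψ' ≠ 0 := by
      rintro rfl
      rw [zero_dotProduct] at ho'
      exact ho' rfl
    obtain ⟨P, hP, h1, h2⟩ := exists_P_of_opposite c ψ c' ψ' h h' ho ho'
    exact (Relation.ReflTransGen.single
      (hadj _ P (trn_ne c ψ hc hψ) (trn_sq c ψ h) (det_trn c ψ h) hP h1)).tail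
      (hadj _ P (trn_ne c' ψ' hc' hψ') (trn_sq c' ψ' h') (det_trn c' ψ' h') hP h2).symm
  -- a vector on which both functionals do not vanish
  obtain ⟨i, hi⟩ := Function.ne_iff.mp hψ
  obtain ⟨j, hj⟩ := Function.ne_iff.mp hψ'
  simp only [Pi.zero_apply] at hi hj
  obtain ⟨d, hd1, hd2⟩ : ∃ d : Fin n → F, ψ ⬝ᵥ d ≠ 0 ∧ ψ' ⬝ᵥ d ≠ 0 := by
    by_cases h1 : ψ' i = 0
    · by_cases h2 : ψ j = 0
      · refine ⟨Pi.single i 1 + Pi.single j 1, ?_, ?_⟩
        · rwa [dotProduct_add, dotProduct_single_one, dotProduct_single_one, h2, add_zero]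
        · rwa [dotProduct_add, dotProduct_single_one, dotProduct_single_one, h1, zero_add]
      · exact ⟨Pi.single j 1, by rwa [dotProduct_single_one], by rwa [dotProduct_single_one]⟩
    · exact ⟨Pi.single i 1, by rwa [dotProduct_single_one], by rwa [dotProduct_single_one]⟩
  -- functionals which vanish on `d`
  have fn : ∀ (c ψ : Fin n → F), ψ ⬝ᵥ c = 0 → c ≠ 0 → ψ ⬝ᵥ d ≠ 0 →
      ∃ χ : Fin n → F, χ ⬝ᵥ d = 0 ∧ χ ⬝ᵥ c ≠ 0 := by
    intro c ψ h hc hd
    obtain ⟨k, hk⟩ := Function.ne_iff.mp hc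
    simp only [Pi.zero_apply] at hk
    refine ⟨Pi.single k 1 - (d k / (ψ ⬝ᵥ d)) • ψ, ?_, ?_⟩
    · rw [sub_dotProduct, single_one_dotProduct, smul_dotProduct, smul_eq_mul,
        div_mul_cancel₀ _ hd, sub_self]
    · rwa [sub_dotProduct, single_one_dotProduct, smul_dotProduct, h, smul_zero, sub_zero]
  obtain ⟨χ₁, e1, e2⟩ := fn c ψ h hc hd1
  obtain ⟨χ₂, e3, e4⟩ := fn c' ψ' h' hc' hd2
  obtain ⟨χ, hχ, hχ1, hχ2⟩ : ∃ χ : Fin n → F, χ ⬝ᵥ d = 0 ∧ χ ⬝ᵥ c ≠ 0 ∧ χ ⬝ᵥ c' ≠ 0 := by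
    by_cases h1 : χ₁ ⬝ᵥ c' = 0
    · by_cases h2 : χ₂ ⬝ᵥ c = 0
      · refine ⟨χ₁ + χ₂, ?_, ?_, ?_⟩
        · rw [add_dotProduct, e1, e3, add_zero]
        · rwa [add_dotProduct, h2, add_zero]
        · rwa [add_dotProduct, h1, zero_add]
      · exact ⟨χ₂, e3, h2, e4⟩
    · exact ⟨χ₁, e1, e2, h1⟩
  exact (opp c ψ d χ h hχ hd1 hχ1).trans (opp d χ c' ψ' hχ h' hχ2 hd2)

/-- In `PSL_n(F)`, `n ≥ 3`, `F` a finite field with `q` elements, the involutions are joined
if `q` is odd or `q - 1` does not divide `n`. -/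
theorem involutionsJoined_PSL {n : ℕ} (hn : 3 ≤ n) (F : Type*) [Field F]
    [Finite F] (hq : Odd (Nat.card F) ∨ ¬ (Nat.card F - 1 ∣ n)) :
    InvolutionsJoined (Matrix.ProjectiveSpecialLinearGroup (Fin n) F) := by
  have := Fintype.ofFinite F
  have hcard : Nat.card F = Fintype.card F := Nat.card_eq_fintype_card
  have hn0 : 0 < n := by omega
  -- an element of order two is the image of a non-scalar matrix with scalar square
  have lift : ∀ x : Matrix.ProjectiveSpecialLinearGroup (Fin n) F, orderOf x = 2 →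
      ∃ (g : Matrix.SpecialLinearGroup (Fin n) F) (r : F), proj n F g = x ∧
        x * x = 1 ∧ x ≠ 1 ∧ g.1 * g.1 = r • (1 : Matrix (Fin n) (Fin n) F) ∧
        ∀ s : F, g.1 ≠ s • (1 : Matrix (Fin n) (Fin n) F) := by
    intro x hx
    have hx1 : x ≠ 1 := by
      rintro rfl
      rw [orderOf_one] at hx
      omega
    have hx2 : x * x = 1 := by rw [← pow_two, ← hx, pow_orderOf_eq_one]
    obtain ⟨g, rfl⟩ := QuotientGroup.mk'_surjective _ x
    have hz : g * g ∈ Subgroup.center (Matrix.SpecialLinearGroup (Fin n) F) := by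
      rw [← map_mul] at hx2
      exact (QuotientGroup.eq_one_iff _).mp hx2
    obtain ⟨r, -, hr⟩ := Matrix.SpecialLinearGroup.mem_center_iff.mp hz
    refine ⟨g, r, rfl, hx2, hx1, ?_, ?_⟩
    · rw [← scalar_eq_smul, hr]
      rfl
    · intro s hs
      apply hx1
      refine (QuotientGroup.eq_one_iff g).mpr ?_
      rw [Matrix.SpecialLinearGroup.mem_center_iff]
      refine ⟨s, ?_, ?_⟩
      · have h1 : g.1.det = 1 := g.2
        rwa [hs, det_smul, det_one, mul_one] at h1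
      · rw [scalar_eq_smul, ← hs]
  by_cases h2F : (2 : F) = 0
  · -- characteristic two
    have hchar : CharP F 2 := CharTwo.of_one_ne_zero_of_two_eq_zero one_ne_zero h2F
    have heven : 2 ∣ Fintype.card F := by
      have h1 : ((Fintype.card F : ℕ) : F) = 0 := FiniteField.cast_card_eq_zero F
      exact (CharP.cast_eq_zero_iff F 2 _).mp h1
    have hndvd : ¬ (Fintype.card F - 1 ∣ n) := by
      rcases hq with hq | hq
      · exfalso
        rw [hcard] at hq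
        obtain ⟨k, hk⟩ := hq
        omega
      · rwa [hcard] at hq
    have hlt : 1 < Fintype.card F := Fintype.one_lt_card
    have hm : Odd (Fintype.card F - 1) := by
      obtain ⟨k, hk⟩ := heven
      exact ⟨k - 1, by omega⟩
    have h2F' : ((2 : ℕ) : F) = 0 := by exact_mod_cast h2F
    obtain ⟨u, hu⟩ : ∃ u : Fˣ, u ^ n ≠ 1 := by
      by_contra hcon
      push Not at hcon
      obtain ⟨g, hg⟩ := IsCyclic.exists_generator (α := Fˣ)
      have h1 : orderOf g = Nat.card Fˣ := orderOf_eq_card_of_forall_mem_zpowers hg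
      have h2 : orderOf g ∣ n := orderOf_dvd_of_pow_eq_one (hcon g)
      rw [h1, Nat.card_units, hcard] at h2
      exact hndvd h2
    obtain ⟨σ, hσ⟩ : ∃ σ : F, σ = u := ⟨_, rfl⟩
    have hσ0 : σ ≠ 0 := by rw [hσ]; exact u.ne_zero
    have hσn : σ ^ n ≠ 1 := by
      intro h
      apply hu
      ext
      rw [Units.val_pow_eq_pow_val, ← hσ, h, Units.val_one]
    obtain ⟨ρ, hρ⟩ : ∃ ρ : F, ρ = σ ^ 2 := ⟨_, rfl⟩
    obtain ⟨ν, hν⟩ : ∃ ν : F, ν = (σ ^ (n - 2))⁻¹ := ⟨_, rfl⟩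
    have hρ0 : ρ ≠ 0 := by rw [hρ]; exact pow_ne_zero _ hσ0
    have hν0 : ν ≠ 0 := by rw [hν]; exact inv_ne_zero (pow_ne_zero _ hσ0)
    have hne : ν ≠ ρ := by
      intro h
      rw [hν, hρ] at h
      apply hσn
      have h1 : σ ^ (n - 2) * σ ^ 2 = 1 := by
        rw [← h, mul_inv_cancel₀ (pow_ne_zero _ hσ0)]
      rwa [← pow_add, Nat.sub_add_cancel (by omega)] at h1
    have hdet1 : ρ ^ (n - 2) * ν ^ 2 = 1 := by
      rw [hρ, hν, ← pow_mul, inv_pow, ← pow_mul, mul_comm 2 (n - 2),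
        mul_inv_cancel₀ (pow_ne_zero _ hσ0)]
    have hρm := FiniteField.pow_card_sub_one_eq_one ρ hρ0
    have hνm := FiniteField.pow_card_sub_one_eq_one ν hν0
    have hd : ∀ P : Matrix (Fin n) (Fin n) F, IsP P →
        (ρ • (1 : Matrix (Fin n) (Fin n) F) + (ν - ρ) • P).det = 1 := by
      intro P hP
      rw [hP.det (by omega) hρ0, hdet1]
    have hadj : ∀ (N P : Matrix (Fin n) (Fin n) F) (_ : N ≠ 0) (_ : N * N = 0)
        (hN : (1 + N).det = 1) (hP : IsP P), P * N = N * P →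
        CyclicAdj (proj n F (un N hN)) (proj n F (dn P ρ ν (hd P hP))) := by
      intro N P hN0 hNN hN hP hPN
      refine cyclicAdj_of ?_ ?_ hm ?_ (proj_ne_one (un_not_mem_center hn0 N hN hNN hN0))
        (proj_ne_one (dn_not_mem_center hn hP hne _))
      · rw [← map_mul, ← map_mul]
        congr 1
        apply Subtype.ext
        show (1 + N) * (ρ • (1 : Matrix (Fin n) (Fin n) F) + (ν - ρ) • P) =
          (ρ • (1 : Matrix (Fin n) (Fin n) F) + (ν - ρ) • P) * (1 + N)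
        simp only [mul_add, add_mul, mul_smul_comm, smul_mul_assoc, mul_one, one_mul, hPN]
        module
      · rw [← map_mul, ← pow_two, un_pow_char N hN hNN h2F', map_one]
      · rw [← map_pow, dn_pow_eq_one hP ρ ν _ hρm hνm, map_one]
    -- an involution is joined to a transvection
    have key : ∀ x : Matrix.ProjectiveSpecialLinearGroup (Fin n) F, orderOf x = 2 →
        ∃ (c ψ : Fin n → F) (h : ψ ⬝ᵥ c = 0), c ≠ 0 ∧ ψ ≠ 0 ∧
          Relation.ReflTransGen CyclicAdj x (proj n F (un (vecMulVec c ψ) (det_trn c ψ h))) ∧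
          Relation.ReflTransGen CyclicAdj (proj n F (un (vecMulVec c ψ) (det_trn c ψ h))) x := by
      intro x hx
      obtain ⟨g, r, hgx, hx2, hx1, hgg, hgs⟩ := lift x hx
      obtain ⟨μ, hμ⟩ : IsSquare r :=
        FiniteField.isSquare_of_char_two (ringChar.eq F 2 ▸ rfl) r
      obtain ⟨N, hN⟩ : ∃ N, N = g.1 - μ • (1 : Matrix (Fin n) (Fin n) F) := ⟨_, rfl⟩
      have hN0 : N ≠ 0 := by
        intro h
        rw [h] at hN
        exact hgs μ (sub_eq_zero.mp hN.symm)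
      have hNN : N * N = 0 := by
        rw [hN]
        simp only [mul_sub, sub_mul, mul_smul_comm, smul_mul_assoc, mul_one, one_mul, hgg, hμ,
          smul_smul, smul_sub]
        have h1 : (μ * μ) • (1 : Matrix (Fin n) (Fin n) F) - μ • g.1 -
            (μ • g.1 - (μ * μ) • (1 : Matrix (Fin n) (Fin n) F)) =
            (2 : F) • ((μ * μ) • (1 : Matrix (Fin n) (Fin n) F) - μ • g.1) := by module
        rw [h1, h2F, zero_smul]
      obtain ⟨P, hP, hPN, c, ψ, hc, hψ, hψc, hPT⟩ := exists_P_of_sq_zero N hN0 hNN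
      have hPg : g.1 * P = P * g.1 := by
        have h1 : g.1 = N + μ • (1 : Matrix (Fin n) (Fin n) F) := by
          rw [hN]
          abel
        rw [h1, add_mul, mul_add, hPN, smul_mul_assoc, mul_smul_comm, one_mul, mul_one]
      have a1 : CyclicAdj x (proj n F (dn P ρ ν (hd P hP))) := by
        refine cyclicAdj_of ?_ hx2 hm ?_ hx1 (proj_ne_one (dn_not_mem_center hn hP hne _))
        · rw [← hgx, ← map_mul, ← map_mul]
          congr 1
          apply Subtype.ext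
          show g.1 * (ρ • (1 : Matrix (Fin n) (Fin n) F) + (ν - ρ) • P) =
            (ρ • (1 : Matrix (Fin n) (Fin n) F) + (ν - ρ) • P) * g.1
          simp only [mul_add, add_mul, mul_smul_comm, smul_mul_assoc, mul_one, one_mul, hPg]
        · rw [← map_pow, dn_pow_eq_one hP ρ ν _ hρm hνm, map_one]
      have a2 := hadj _ P (trn_ne c ψ hc hψ) (trn_sq c ψ hψc) (det_trn c ψ hψc) hP hPT
      exact ⟨c, ψ, hψc, hc, hψ, (Relation.ReflTransGen.single a1).tail a2.symm,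
        (Relation.ReflTransGen.single a2).tail a1.symm⟩
    intro s t hs ht
    obtain ⟨c, ψ, h, hc, hψ, h1, -⟩ := key s hs
    obtain ⟨c', ψ', h', hc', hψ', -, h2⟩ := key t ht
    exact (h1.trans (joined_trn hd hadj c ψ c' ψ' h h' hc hψ hc' hψ')).trans h2
  · -- odd characteristic
    obtain ⟨p, hchar⟩ := CharP.exists F
    have hprime : p.Prime := CharP.char_is_prime F p
    have hpF : (p : F) = 0 := CharP.cast_eq_zero F p
    have hp : Odd p := hprime.odd_of_ne_two (by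
      rintro rfl
      exact h2F (by exact_mod_cast hpF))
    have hne : (-1 : F) ≠ 1 := by
      intro h
      exact h2F (by linear_combination -h)
    have hd : ∀ P : Matrix (Fin n) (Fin n) F, IsP P →
        ((1 : F) • (1 : Matrix (Fin n) (Fin n) F) + ((-1 : F) - 1) • P).det = 1 := by
      intro P hP
      rw [hP.det (by omega) one_ne_zero, one_pow, one_mul]
      ring
    have hadj : ∀ (N P : Matrix (Fin n) (Fin n) F) (_ : N ≠ 0) (_ : N * N = 0)
        (hN : (1 + N).det = 1) (hP : IsP P), P * N = N * P →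
        CyclicAdj (proj n F (un N hN)) (proj n F (dn P 1 (-1) (hd P hP))) := by
      intro N P hN0 hNN hN hP hPN
      refine (cyclicAdj_of ?_ ?_ hp ?_ (proj_ne_one (dn_not_mem_center hn hP hne _))
        (proj_ne_one (un_not_mem_center hn0 N hN hNN hN0))).symm
      · rw [← map_mul, ← map_mul]
        congr 1
        apply Subtype.ext
        show ((1 : F) • (1 : Matrix (Fin n) (Fin n) F) + ((-1 : F) - 1) • P) * (1 + N) =
          (1 + N) * ((1 : F) • (1 : Matrix (Fin n) (Fin n) F) + ((-1 : F) - 1) • P)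
        simp only [mul_add, add_mul, mul_smul_comm, smul_mul_assoc, mul_one, one_mul, hPN]
        module
      · rw [← map_mul, ← pow_two, dn_pow_eq_one hP 1 (-1) _ (one_pow 2) (by ring), map_one]
      · rw [← map_pow, un_pow_char N hN hNN hpF, map_one]
    -- an involution is joined to a transvection
    have key : ∀ x : Matrix.ProjectiveSpecialLinearGroup (Fin n) F, orderOf x = 2 →
        ∃ (c ψ : Fin n → F) (h : ψ ⬝ᵥ c = 0), c ≠ 0 ∧ ψ ≠ 0 ∧
          Relation.ReflTransGen CyclicAdj x (proj n F (un (vecMulVec c ψ) (det_trn c ψ h))) ∧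
          Relation.ReflTransGen CyclicAdj (proj n F (un (vecMulVec c ψ) (det_trn c ψ h))) x := by
      intro x hx
      obtain ⟨g, r, hgx, hx2, hx1, hgg, hgs⟩ := lift x hx
      obtain ⟨N, hN0, hNN, hgN, hN⟩ := exists_N_of_sq_scalar hn g.1 hgg hgs
      obtain ⟨P, hP, hPN, c, ψ, hc, hψ, hψc, hPT⟩ := exists_P_of_sq_zero N hN0 hNN
      have a1 : CyclicAdj x (proj n F (un N hN)) := by
        refine cyclicAdj_of ?_ hx2 hp ?_ hx1 (proj_ne_one (un_not_mem_center hn0 N hN hNN hN0))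
        · rw [← hgx, ← map_mul, ← map_mul]
          congr 1
          apply Subtype.ext
          show g.1 * (1 + N) = (1 + N) * g.1
          rw [mul_add, add_mul, mul_one, one_mul, hgN]
        · rw [← map_pow, un_pow_char N hN hNN hpF, map_one]
      have a2 := hadj N P hN0 hNN hN hP hPN
      have a3 := hadj _ P (trn_ne c ψ hc hψ) (trn_sq c ψ hψc) (det_trn c ψ hψc) hP hPT
      exact ⟨c, ψ, hψc, hc, hψ,
        ((Relation.ReflTransGen.single a1).tail a2).tail a3.symm,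
        ((Relation.ReflTransGen.single a3).tail a2.symm).tail a1.symm⟩
    intro s t hs ht
    obtain ⟨c, ψ, h, hc, hψ, h1, -⟩ := key s hs
    obtain ⟨c', ψ', h', hc', hψ', -, h2⟩ := key t ht
    exact (h1.trans (joined_trn hd hadj c ψ c' ψ' h h' hc hψ hc' hψ')).trans h2

end Joined

end Pool.Agent.MP_4a7ffb
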