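import Mathlib

/-!
# MP_4a7ffb_al: groups saturated by a class of finite groups

Definitions and the chain argument shared by the hand-ins InvolutionCriterion and
BinaryCriterion.
-/

namespace Pool.Agent.MP_4a7ffb

universe u v

/-- `G` is periodic: every element of `G` has finite order. -/
def Periodic (G : Type v) [Group G] : Prop := ∀ g : G, IsOfFinOrder g

/-- A class of groups: a property of groups of the universe `u`. -/
abbrev GroupClass : Type (u + 1) := (M : Type u) → Group M → Prop

/-- The subgroup `L` of `G` is isomorphic to a member of the class `X`. -/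
def IsMember (X : GroupClass.{u}) {G : Type v} [Group G] (L : Subgroup G) : Prop :=
  ∃ (M : Type u) (inst : Group M), X M inst ∧ Nonempty (L ≃* M)

/-- `G` is saturated by the class `X`: every finite subgroup of `G` is contained in a subgroup
of `G` isomorphic to a member of `X`. -/
def SaturatedBy (X : GroupClass.{u}) (G : Type v) [Group G] : Prop :=
  ∀ K : Subgroup G, Finite K → ∃ L : Subgroup G, K ≤ L ∧ IsMember X L

/-- `G` is locally finite: every finitely generated subgroup of `G` is finite. -/
def LocallyFin (G : Type v) [Group G] : Prop :=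
  ∀ H : Subgroup G, H.FG → Finite H

/-- `G` is the union of a directed family of subgroups isomorphic to members of `X`. -/
def DirectedUnion (X : GroupClass.{u}) (G : Type v) [Group G] : Prop :=
  ∃ S : Set (Subgroup G), (∀ L ∈ S, IsMember X L) ∧ DirectedOn (fun A B => A ≤ B) S ∧
    ∀ g : G, ∃ L ∈ S, g ∈ L

section Basic

variable {X : GroupClass.{u}} {G : Type v} [Group G]

theorem finite_of_isMember (hfin : ∀ (M : Type u) (inst : Group M), X M inst → Finite M)
    {L : Subgroup G} (hL : IsMember X L) : Finite L := by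
  obtain ⟨M, inst, hM, ⟨e⟩⟩ := hL
  have : Finite M := hfin M inst hM
  exact Finite.of_equiv M e.symm.toEquiv

theorem finite_zpowers_of_torsion (hper : Periodic G) (g : G) :
    Finite (Subgroup.zpowers g) := by
  have h := hper g
  exact (finite_zpowers.mpr h).to_subtype

theorem locallyFin_iff_forall_finset :
    LocallyFin G ↔ ∀ F : Finset G, Finite (Subgroup.closure (F : Set G)) := by
  constructor
  · intro h F
    exact h _ ⟨F, rfl⟩
  · rintro h H ⟨F, rfl⟩
    exact h F

/-- If `L` is isomorphic to `M`, then the image in `G` of a generating set of `M` generates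
`L`. -/
theorem closure_image_eq {L : Subgroup G} {M : Type u} [Group M] (e : L ≃* M) (S : Set M)
    (hS : Subgroup.closure S = ⊤) :
    Subgroup.closure ((fun m => ((e.symm m : L) : G)) '' S) = L := by
  have h1 : (fun m => ((e.symm m : L) : G)) '' S =
      (L.subtype.comp e.symm.toMonoidHom) '' S := rfl
  rw [h1, ← MonoidHom.map_closure, hS]
  ext g
  constructor
  · rintro ⟨m, -, rfl⟩
    exact (e.symm m).2
  · intro hg
    exact ⟨e ⟨g, hg⟩, Subgroup.mem_top _, by simp⟩

theorem orderOf_coe_symm {L : Subgroup G} {M : Type u} [Group M] (e : L ≃* M) (m : M) :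
    orderOf ((e.symm m : L) : G) = orderOf m := by
  rw [Subgroup.orderOf_coe]
  exact orderOf_injective e.symm.toMonoidHom e.symm.injective m

/-- A locally finite group saturated by `X` (a class of finite groups) is the union of a
directed family of members of `X`. -/
theorem directedUnion_of_locallyFin
    (hfin : ∀ (M : Type u) (inst : Group M), X M inst → Finite M)
    (hsat : SaturatedBy X G) (h : LocallyFin G) : DirectedUnion X G := by
  refine ⟨{L | IsMember X L}, fun L hL => hL, ?_, ?_⟩
  · intro A hA B hB
    have := finite_of_isMember hfin hA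
    have := finite_of_isMember hfin hB
    have hAfg : A.FG := (Group.fg_iff_subgroup_fg A).mp inferInstance
    have hBfg : B.FG := (Group.fg_iff_subgroup_fg B).mp inferInstance
    have hF : Finite ↥(A ⊔ B) := h _ (Subgroup.FG.sup hAfg hBfg)
    obtain ⟨L, hL, hLm⟩ := hsat _ hF
    exact ⟨L, hLm, le_trans le_sup_left hL, le_trans le_sup_right hL⟩
  · intro g
    have hF : Finite (Subgroup.zpowers g) := by
      have h1 : (Subgroup.zpowers g).FG := by
        refine ⟨{g}, ?_⟩
        rw [Finset.coe_singleton, Subgroup.zpowers_eq_closure]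
      exact h _ h1
    obtain ⟨L, hL, hLm⟩ := hsat _ hF
    exact ⟨L, hLm, hL (Subgroup.mem_zpowers g)⟩

theorem locallyFin_of_directedUnion
    (hfin : ∀ (M : Type u) (inst : Group M), X M inst → Finite M)
    (h : DirectedUnion X G) : LocallyFin G := by
  classical
  obtain ⟨S, hS, hdir, hcov⟩ := h
  rw [locallyFin_iff_forall_finset]
  intro F
  have key : ∃ L ∈ S, (F : Set G) ⊆ L := by
    induction F using Finset.induction_on with
    | empty =>
      obtain ⟨L, hL, -⟩ := hcov 1
      exact ⟨L, hL, by simp⟩
    | insert a F _ ih =>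
      obtain ⟨L, hL, hFL⟩ := ih
      obtain ⟨L', hL', haL'⟩ := hcov a
      obtain ⟨L'', hL'', h1, h2⟩ := hdir L hL L' hL'
      refine ⟨L'', hL'', ?_⟩
      intro x hx
      rw [Finset.coe_insert] at hx
      rcases hx with rfl | hx
      · exact h2 haL'
      · exact h1 (hFL hx)
  obtain ⟨L, hL, hFL⟩ := key
  have := finite_of_isMember hfin (hS L hL)
  have hle : Subgroup.closure (F : Set G) ≤ L := (Subgroup.closure_le L).mpr hFL
  exact Finite.of_injective (Subgroup.inclusion hle) (Subgroup.inclusion_injective hle)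

/-- The chain argument. Let `R` be a relation on `G` such that `⟨L, y⟩` is finite whenever `L`
is a member containing `L₀`, `x ∈ L` and `R x y`. Suppose `G` is generated by a set `C` each of
whose elements is joined, by a chain of `R`, to some element of the member `L₀`. Then `G` is
locally finite. -/
theorem locallyFin_of_chain
    (hfin : ∀ (M : Type u) (inst : Group M), X M inst → Finite M)
    (hsat : SaturatedBy X G)
    (C : Set G) (hC : Subgroup.closure C = ⊤) (R : G → G → Prop)
    (L₀ : Subgroup G) (hL₀ : IsMember X L₀)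
    (hext : ∀ L : Subgroup G, IsMember X L → L₀ ≤ L → ∀ x ∈ L, ∀ y, R x y →
      Finite ↥(L ⊔ Subgroup.zpowers y))
    (hlink : ∀ y ∈ C, ∃ x ∈ L₀, Relation.ReflTransGen R x y) : LocallyFin G := by
  classical
  -- one element of `C` can be added
  have step1 : ∀ L : Subgroup G, IsMember X L → L₀ ≤ L → ∀ y ∈ C,
      ∃ L' : Subgroup G, IsMember X L' ∧ L ≤ L' ∧ y ∈ L' := by
    intro L hL hle0 y hy
    obtain ⟨x, hx, hxy⟩ := hlink y hy
    clear hy
    induction hxy with
    | refl => exact ⟨L, hL, le_rfl, hle0 hx⟩
    | tail _ hbc ih =>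
      obtain ⟨L1, hL1, hle, hb⟩ := ih
      have hF := hext L1 hL1 (hle0.trans hle) _ hb _ hbc
      obtain ⟨L2, hL2, hm⟩ := hsat _ hF
      exact ⟨L2, hm, le_trans hle (le_trans le_sup_left hL2),
        hL2 (Subgroup.mem_sup_right (Subgroup.mem_zpowers _))⟩
  -- a finite subset of `C` can be added
  have step2 : ∀ F : Finset G, (∀ y ∈ F, y ∈ C) →
      ∃ L' : Subgroup G, IsMember X L' ∧ L₀ ≤ L' ∧ (F : Set G) ⊆ L' := by
    intro F
    induction F using Finset.induction_on with
    | empty => exact fun _ => ⟨L₀, hL₀, le_rfl, by simp⟩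
    | insert a F _ ih =>
      intro hF
      obtain ⟨L1, hL1, hle1, hF1⟩ := ih (fun y hy => hF y (Finset.mem_insert_of_mem hy))
      obtain ⟨L2, hL2, hle2, ha2⟩ := step1 L1 hL1 hle1 a (hF a (Finset.mem_insert_self a F))
      refine ⟨L2, hL2, hle1.trans hle2, ?_⟩
      intro x hx
      rw [Finset.coe_insert] at hx
      rcases hx with rfl | hx
      · exact ha2
      · exact hle2 (hF1 hx)
  -- every element is a product of elements of a finite subset of `C`
  have step3 : ∀ g : G, ∃ F : Finset G, (∀ y ∈ F, y ∈ C) ∧
      g ∈ Subgroup.closure (F : Set G) := by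
    intro g
    have hg : g ∈ Subgroup.closure C := by rw [hC]; exact Subgroup.mem_top g
    induction hg using Subgroup.closure_induction with
    | mem x hx => exact ⟨{x}, by simpa using hx, Subgroup.subset_closure (by simp)⟩
    | one => exact ⟨∅, by simp, Subgroup.one_mem _⟩
    | mul x y _ _ hx hy =>
      obtain ⟨F1, h1, h1'⟩ := hx
      obtain ⟨F2, h2, h2'⟩ := hy
      refine ⟨F1 ∪ F2, ?_, Subgroup.mul_mem _ ?_ ?_⟩
      · intro z hz
        rcases Finset.mem_union.mp hz with hz | hz
        · exact h1 z hz
        · exact h2 z hz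
      · exact Subgroup.closure_mono (by simp) h1'
      · exact Subgroup.closure_mono (by simp) h2'
    | inv x _ hx =>
      obtain ⟨F, h1, h2⟩ := hx
      exact ⟨F, h1, Subgroup.inv_mem _ h2⟩
  choose f hf1 hf2 using step3
  rw [locallyFin_iff_forall_finset]
  intro T
  obtain ⟨L, hL, -, hTL⟩ := step2 (T.biUnion f) (by
    intro y hy
    obtain ⟨g, -, hg⟩ := Finset.mem_biUnion.mp hy
    exact hf1 g y hg)
  have := finite_of_isMember hfin hL
  have hle : Subgroup.closure (T : Set G) ≤ L := by
    rw [Subgroup.closure_le]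
    intro g hg
    have h1 : Subgroup.closure (f g : Set G) ≤ L := by
      rw [Subgroup.closure_le]
      intro y hy
      exact hTL (Finset.mem_coe.mpr (Finset.mem_biUnion.mpr ⟨g, hg, hy⟩))
    exact h1 (hf2 g)
  exact Finite.of_injective (Subgroup.inclusion hle) (Subgroup.inclusion_injective hle)

/-- A member of a class of simple groups which meets a normal subgroup nontrivially lies in
it. -/
theorem le_of_normal (hsim : ∀ (M : Type u) (inst : Group M), X M inst → IsSimpleGroup M)
    {N : Subgroup G} (hN : N.Normal) {L : Subgroup G} (hL : IsMember X L) {x : G} (hxL : x ∈ L)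
    (hxN : x ∈ N) (hx : x ≠ 1) : L ≤ N := by
  obtain ⟨M, inst, hM, ⟨e⟩⟩ := hL
  have hs := hsim M inst hM
  have hn : ((N.subgroupOf L).comap e.symm.toMonoidHom).Normal := inferInstance
  rcases hs.eq_bot_or_eq_top_of_normal _ hn with h | h
  · exfalso
    have h1 : e ⟨x, hxL⟩ ∈ (N.subgroupOf L).comap e.symm.toMonoidHom := by
      rw [Subgroup.mem_comap]
      simpa [Subgroup.mem_subgroupOf] using hxN
    rw [h, Subgroup.mem_bot] at h1
    have h2 : (⟨x, hxL⟩ : L) = 1 := by
      apply e.injective
      rw [h1, map_one]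
    exact hx (congrArg Subtype.val h2)
  · intro y hy
    have h1 : e ⟨y, hy⟩ ∈ (N.subgroupOf L).comap e.symm.toMonoidHom := by
      rw [h]
      exact Subgroup.mem_top _
    rw [Subgroup.mem_comap] at h1
    simpa [Subgroup.mem_subgroupOf] using h1

/-- A member of even order contains an involution. -/
theorem exists_involution
    (hfin : ∀ (M : Type u) (inst : Group M), X M inst → Finite M)
    (heven : ∀ (M : Type u) (inst : Group M), X M inst → 2 ∣ Nat.card M)
    {L : Subgroup G} (hL : IsMember X L) : ∃ s ∈ L, orderOf s = 2 := by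
  obtain ⟨M, inst, hM, ⟨e⟩⟩ := hL
  have := hfin M inst hM
  have : Fact (Nat.Prime 2) := ⟨Nat.prime_two⟩
  obtain ⟨s, hs⟩ := exists_prime_orderOf_dvd_card' 2 (heven M inst hM)
  exact ⟨((e.symm s : L) : G), (e.symm s).2, (orderOf_coe_symm e s).trans hs⟩

end Basic

section Dihedral

variable {G : Type v} [Group G]

/-- Two involutions of a periodic group generate a finite subgroup. -/
theorem finite_closure_pair_of_involutions (hper : Periodic G) {x y : G}
    (hx : orderOf x = 2) (hy : orderOf y = 2) :
    Finite (Subgroup.closure ({x, y} : Set G)) := by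
  have hx2 : x * x = 1 := by rw [← pow_two, ← hx, pow_orderOf_eq_one]
  have hy2 : y * y = 1 := by rw [← pow_two, ← hy, pow_orderOf_eq_one]
  have hxi : x⁻¹ = x := inv_eq_of_mul_eq_one_left hx2
  have hyi : y⁻¹ = y := inv_eq_of_mul_eq_one_left hy2
  set z : G := x * y with hz
  have hconj : x * z * x⁻¹ = z⁻¹ := by
    rw [hz, mul_inv_rev, hxi, hyi, ← mul_assoc, hx2, one_mul]
  have hxz : ∀ k : ℤ, x * z ^ k = z ^ (-k) * x := by
    intro k
    have h1 : (x * z * x⁻¹) ^ k = x * z ^ k * x⁻¹ := conj_zpow
    rw [hconj, inv_zpow'] at h1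
    rw [h1, inv_mul_cancel_right]
  have hzx : ∀ k : ℤ, z ^ k * x = x * z ^ (-k) := by
    intro k
    rw [hxz (-k), neg_neg]
  let D : Subgroup G :=
    { carrier := {g | ∃ k : ℤ, g = z ^ k ∨ g = z ^ k * x}
      one_mem' := ⟨0, Or.inl (by simp)⟩
      mul_mem' := by
        rintro a b ⟨k, ha⟩ ⟨l, hb⟩
        rcases ha with rfl | rfl <;> rcases hb with rfl | rfl
        · exact ⟨k + l, Or.inl (zpow_add z k l).symm⟩
        · exact ⟨k + l, Or.inr (by rw [← mul_assoc, zpow_add])⟩
        · exact ⟨k - l, Or.inr (by rw [mul_assoc, hxz, ← mul_assoc, ← zpow_add, sub_eq_add_neg])⟩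
        · refine ⟨k - l, Or.inl ?_⟩
          calc z ^ k * x * (z ^ l * x) = z ^ k * (x * z ^ l) * x := by group
            _ = z ^ k * (z ^ (-l) * x) * x := by rw [hxz]
            _ = z ^ k * z ^ (-l) * (x * x) := by group
            _ = z ^ (k - l) := by rw [hx2, mul_one, ← zpow_add, sub_eq_add_neg]
      inv_mem' := by
        rintro a ⟨k, ha⟩
        rcases ha with rfl | rfl
        · exact ⟨-k, Or.inl (zpow_neg z k).symm⟩
        · refine ⟨k, Or.inr ?_⟩
          rw [mul_inv_rev, hxi, ← zpow_neg, hxz, neg_neg] }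
  have hDfin : Finite D := by
    have h1 : ((Subgroup.zpowers z : Set G)).Finite := finite_zpowers.mpr (hper z)
    have h2 : ((fun g => g * x) '' (Subgroup.zpowers z : Set G)).Finite := h1.image _
    have h3 : (D : Set G) ⊆ (Subgroup.zpowers z : Set G) ∪
        ((fun g => g * x) '' (Subgroup.zpowers z : Set G)) := by
      rintro g ⟨k, hk⟩
      rcases hk with rfl | rfl
      · exact Or.inl ⟨k, rfl⟩
      · exact Or.inr ⟨z ^ k, ⟨k, rfl⟩, rfl⟩
    exact ((h1.union h2).subset h3).to_subtype
  have hle : Subgroup.closure ({x, y} : Set G) ≤ D := by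
    rw [Subgroup.closure_le]
    rintro g hg
    rcases hg with rfl | hg
    · exact ⟨0, Or.inr (by simp)⟩
    · rw [Set.mem_singleton_iff] at hg
      subst hg
      refine ⟨-1, Or.inr ?_⟩
      rw [zpow_neg_one, hz, mul_inv_rev, hyi, hxi, mul_assoc, hx2, mul_one]
  exact Finite.of_injective (Subgroup.inclusion hle) (Subgroup.inclusion_injective hle)

end Dihedral

section Simple

variable {X : GroupClass.{u}} {G : Type v} [Group G]

theorem ne_one_of_orderOf_eq_two {x : G} (h : orderOf x = 2) : x ≠ 1 := by
  rintro rfl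
  rw [orderOf_one] at h
  omega

/-- A periodic group saturated by finite simple groups of even order is generated by every
conjugation-invariant subset containing a nontrivial element. -/
theorem closure_eq_top (hper : Periodic G) (hsat : SaturatedBy X G)
    (hX : ∀ (M : Type u) (inst : Group M), X M inst →
      Finite M ∧ IsSimpleGroup M ∧ 2 ∣ Nat.card M)
    {C : Set G} (hC : ∀ c ∈ C, ∀ g : G, g * c * g⁻¹ ∈ C) {t : G} (htC : t ∈ C) (ht : t ≠ 1) :
    Subgroup.closure C = ⊤ := by
  have hfin : ∀ (M : Type u) (inst : Group M), X M inst → Finite M :=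
    fun M inst hM => (hX M inst hM).1
  have hsim : ∀ (M : Type u) (inst : Group M), X M inst → IsSimpleGroup M :=
    fun M inst hM => (hX M inst hM).2.1
  have heven : ∀ (M : Type u) (inst : Group M), X M inst → 2 ∣ Nat.card M :=
    fun M inst hM => (hX M inst hM).2.2
  have hn : (Subgroup.closure C).Normal := by
    refine ⟨fun n hn g => ?_⟩
    induction hn using Subgroup.closure_induction with
    | mem x hx => exact Subgroup.subset_closure (hC x hx g)
    | one => simp
    | mul x y _ _ hx hy =>
      have h1 : g * (x * y) * g⁻¹ = (g * x * g⁻¹) * (g * y * g⁻¹) := by group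
      rw [h1]
      exact Subgroup.mul_mem _ hx hy
    | inv x _ hx =>
      have h1 : g * x⁻¹ * g⁻¹ = (g * x * g⁻¹)⁻¹ := by group
      rw [h1]
      exact Subgroup.inv_mem _ hx
  have htN : t ∈ Subgroup.closure C := Subgroup.subset_closure htC
  rw [eq_top_iff]
  intro g _
  obtain ⟨L1, hL1, hm1⟩ := hsat _ (finite_zpowers_of_torsion hper t)
  obtain ⟨L2, hL2, hm2⟩ := hsat _ (finite_zpowers_of_torsion hper g)
  obtain ⟨i, hi, hi2⟩ := exists_involution hfin heven hm1
  obtain ⟨j, hj, hj2⟩ := exists_involution hfin heven hm2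
  obtain ⟨L3, hL3, hm3⟩ := hsat _ (finite_closure_pair_of_involutions hper hi2 hj2)
  have hiN := le_of_normal hsim hn hm1 (hL1 (Subgroup.mem_zpowers t)) htN ht hi
  have hjN := le_of_normal hsim hn hm3 (hL3 (Subgroup.subset_closure (by simp))) hiN
    (ne_one_of_orderOf_eq_two hi2) (hL3 (Subgroup.subset_closure (by simp : j ∈ ({i, j} : Set G))))
  exact le_of_normal hsim hn hm2 hj hjN (ne_one_of_orderOf_eq_two hj2)
    (hL2 (Subgroup.mem_zpowers g))

end Simple

section Linked

/-- Two nontrivial elements of a group are adjacent if they lie in a common cyclic subgroup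
(adjacency in the proper enhanced power graph). -/
def CyclicAdj {H : Type*} [Group H] (x y : H) : Prop :=
  x ≠ 1 ∧ y ≠ 1 ∧ ∃ c : H, x ∈ Subgroup.zpowers c ∧ y ∈ Subgroup.zpowers c

/-- Any two involutions of `H` are joined by a chain of nontrivial elements in which
neighbours lie in a common cyclic subgroup. -/
def InvolutionsJoined (H : Type*) [Group H] : Prop :=
  ∀ s t : H, orderOf s = 2 → orderOf t = 2 → Relation.ReflTransGen CyclicAdj s t

/-- Any two involutions of `H` are joined by a chain of involutions in which neighbours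
commute: the commuting involution graph of `H` is connected. -/
def InvolutionGraphConnected (H : Type*) [Group H] : Prop :=
  ∀ s t : H, orderOf s = 2 → orderOf t = 2 →
    Relation.ReflTransGen (fun x y : H => orderOf x = 2 ∧ orderOf y = 2 ∧ Commute x y) s t

variable {X : GroupClass.{u}} {G : Type v} [Group G]

/-- If the involutions are joined in every member of `X`, they are joined in `G`. -/
theorem involutionsJoined_of_members (hper : Periodic G) (hsat : SaturatedBy X G)
    (h : ∀ (M : Type u) (inst : Group M), X M inst → @InvolutionsJoined M inst) :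
    InvolutionsJoined G := by
  intro s t hs ht
  obtain ⟨L, hL, M, inst, hM, ⟨e⟩⟩ := hsat _ (finite_closure_pair_of_involutions hper hs ht)
  have hsL : s ∈ L := hL (Subgroup.subset_closure (by simp))
  have htL : t ∈ L := hL (Subgroup.subset_closure (by simp))
  let φ : M →* G := L.subtype.comp e.symm.toMonoidHom
  have hφ : Function.Injective φ := L.subtype_injective.comp e.symm.injective
  have hs' : φ (e ⟨s, hsL⟩) = s := by simp [φ]
  have ht' : φ (e ⟨t, htL⟩) = t := by simp [φ]
  have hord : ∀ m : M, orderOf (φ m) = orderOf m := fun m => orderOf_injective φ hφ m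
  have h1 := h M inst hM (e ⟨s, hsL⟩) (e ⟨t, htL⟩)
    (by rw [← hord, hs', hs]) (by rw [← hord, ht', ht])
  have h2 : ∀ a b : M, Relation.ReflTransGen CyclicAdj a b →
      Relation.ReflTransGen CyclicAdj (φ a) (φ b) := by
    intro a b hab
    induction hab with
    | refl => exact Relation.ReflTransGen.refl
    | tail _ hab ih =>
      obtain ⟨h1, h2, c, hc1, hc2⟩ := hab
      refine ih.tail ⟨fun h => h1 (hφ (by rw [h, map_one])),
        fun h => h2 (hφ (by rw [h, map_one])), φ c, ?_, ?_⟩
      · obtain ⟨k, hk⟩ := Subgroup.mem_zpowers_iff.mp hc1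
        exact ⟨k, by rw [← hk, map_zpow]⟩
      · obtain ⟨k, hk⟩ := Subgroup.mem_zpowers_iff.mp hc2
        exact ⟨k, by rw [← hk, map_zpow]⟩
  have h3 := h2 _ _ h1
  rwa [hs', ht'] at h3

/-- If the commuting involution graph of every member of `X` is connected, so is that of `G`. -/
theorem involutionGraphConnected_of_members (hper : Periodic G) (hsat : SaturatedBy X G)
    (h : ∀ (M : Type u) (inst : Group M), X M inst → @InvolutionGraphConnected M inst) :
    InvolutionGraphConnected G := by
  intro s t hs ht
  obtain ⟨L, hL, M, inst, hM, ⟨e⟩⟩ := hsat _ (finite_closure_pair_of_involutions hper hs ht)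
  have hsL : s ∈ L := hL (Subgroup.subset_closure (by simp))
  have htL : t ∈ L := hL (Subgroup.subset_closure (by simp))
  let φ : M →* G := L.subtype.comp e.symm.toMonoidHom
  have hφ : Function.Injective φ := L.subtype_injective.comp e.symm.injective
  have hs' : φ (e ⟨s, hsL⟩) = s := by simp [φ]
  have ht' : φ (e ⟨t, htL⟩) = t := by simp [φ]
  have hord : ∀ m : M, orderOf (φ m) = orderOf m := fun m => orderOf_injective φ hφ m
  have h1 := h M inst hM (e ⟨s, hsL⟩) (e ⟨t, htL⟩)
    (by rw [← hord, hs', hs]) (by rw [← hord, ht', ht])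
  have h2 : ∀ a b : M,
      Relation.ReflTransGen (fun x y : M => orderOf x = 2 ∧ orderOf y = 2 ∧ Commute x y) a b →
      Relation.ReflTransGen (fun x y : G => orderOf x = 2 ∧ orderOf y = 2 ∧ Commute x y)
        (φ a) (φ b) := by
    intro a b hab
    induction hab with
    | refl => exact Relation.ReflTransGen.refl
    | tail _ hab ih =>
      exact ih.tail ⟨by rw [hord]; exact hab.1, by rw [hord]; exact hab.2.1, hab.2.2.map φ⟩
  have h3 := h2 _ _ h1
  rwa [hs', ht'] at h3

end Linked

end Pool.Agent.MP_4a7ffb
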